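import Mathlib
import Pool.Agent.R821.BohrBoolean
import Pool.Agent.U570.RQ.Fin

/-!
# Every precompact abelian Baire group is a quotient of a reflexive precompact Baire group

Positive answer to Q1. The definitions `Precompact` and `Reflexive` are those of the hand-in
`NotQuotientOfReflexive` on Q2 (`Pool.Agent.R821.BohrBoolean`).
-/

set_option autoImplicit false

namespace Pool.Agent.Results.MP_329fc6_gt.QuotientOfReflexiveBaire

universe u

open Pool.Agent.R821

/-- **Positive answer to Q1.** For every precompact Hausdorff abelian group `H` with the Baire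
property there are a precompact Hausdorff abelian group `G` with the Baire property which is
reflexive, a continuous open surjective homomorphism `G → H`, and a closed subgroup `N` of `G` such
that the quotient group `G ⧸ N` is topologically isomorphic to `H`. -/
theorem result (H : Type u) [CommGroup H] [TopologicalSpace H] [IsTopologicalGroup H] [T2Space H]
    [BaireSpace H] (hH : Precompact H) :
    ∃ (G : Type u) (_ : CommGroup G) (_ : TopologicalSpace G) (_ : IsTopologicalGroup G)
      (_ : T2Space G) (_ : BaireSpace G), Precompact G ∧ Reflexive G ∧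
      (∃ π : G →* H, Continuous π ∧ IsOpenMap π ∧ Function.Surjective π) ∧
      ∃ N : Subgroup G, IsClosed (N : Set G) ∧ Nonempty ((G ⧸ N) ≃ₜ* H) := by
  obtain ⟨G, i1, i2, i3, i4, i5, h1, h2, π, h3, h4, h5⟩ := Pool.Agent.U570.RQ.final H hH
  refine ⟨G, i1, i2, i3, i4, i5, h1, h2, ⟨π, h3, h4, h5⟩, π.ker, ?_, ?_⟩
  · exact isClosed_singleton.preimage h3
  · let e : (G ⧸ π.ker) ≃* H := QuotientGroup.quotientKerEquivOfSurjective π h5
    have he : ∀ g : G, e (g : G ⧸ π.ker) = π g := fun g => rfl
    refine ⟨{ toMulEquiv := e, continuous_toFun := ?_, continuous_invFun := ?_ }⟩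
    · change Continuous e
      exact (QuotientGroup.isQuotientMap_mk π.ker).continuous_iff.2 h3
    · change Continuous e.symm
      have hopen : IsOpenMap e := by
        intro U hU
        have h6 : (e '' U) = π '' ((fun g : G => (g : G ⧸ π.ker)) ⁻¹' U) := by
          ext x
          constructor
          · rintro ⟨q, hq, rfl⟩
            obtain ⟨g, rfl⟩ := QuotientGroup.mk_surjective q
            exact ⟨g, hq, rfl⟩
          · rintro ⟨g, hg, rfl⟩
            exact ⟨_, hg, rfl⟩
        rw [h6]
        exact h4 _ (hU.preimage QuotientGroup.continuous_mk)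
      have h7 : ∀ U : Set (G ⧸ π.ker), IsOpen U → IsOpen (e.symm ⁻¹' U) := by
        intro U hU
        have h8 : e.symm ⁻¹' U = e '' U := by
          ext x
          constructor
          · intro hx
            exact ⟨e.symm x, hx, e.apply_symm_apply x⟩
          · rintro ⟨q, hq, rfl⟩
            change e.symm (e q) ∈ U
            rw [e.symm_apply_apply]
            exact hq
        rw [h8]
        exact hopen U hU
      exact ⟨h7⟩

end Pool.Agent.Results.MP_329fc6_gt.QuotientOfReflexiveBaire
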